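import Pool.Agent.TH289.C.C7

/-!
# Equivariant maps that are continuous at one point

`G` acts on a compact space as a minimal convergence group.  An equivariant map to another
`G`-space which is not constant and is continuous at a single point forces the second action to be
discrete, with finite kernel.
-/

set_option autoImplicit false

open Filter Topology Set Pool.Agent.TH289.C

namespace Pool.Agent.TH622.Cn

variable {G : Type} [Group G] {X : Type} [TopologicalSpace X]

/-- The action is minimal: the only nonempty closed invariant set is the whole space. -/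
def IsMinimalAction (α : Action G X) : Prop :=
  ∀ F : Set X, IsClosed F → F.Nonempty → (∀ g, ∀ x ∈ F, α.map g x ∈ F) → F = univ

/-- attracting and repelling points of elements in `S` -/
def Bset (α : Action G X) (S : Set G) : Set (X × X) :=
  {p | ∀ U ∈ 𝓝 p.1, ∀ W ∈ 𝓝 p.2, ∃ g ∈ S, ∀ x, x ∉ W → α.map g x ∈ U}

theorem Bset_closed (α : Action G X) (S : Set G) : IsClosed (Bset α S) := by
  rw [← isOpen_compl_iff, isOpen_iff_mem_nhds]
  rintro ⟨a, b⟩ h
  simp only [Bset, mem_compl_iff, mem_setOf_eq, not_forall] at h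
  obtain ⟨U, hU, W, hW, h⟩ := h
  have h1 : ∀ᶠ a' in 𝓝 a, U ∈ 𝓝 a' := eventually_mem_nhds_iff.2 hU
  have h2 : ∀ᶠ b' in 𝓝 b, W ∈ 𝓝 b' := eventually_mem_nhds_iff.2 hW
  have h3 : ∀ᶠ p : X × X in 𝓝 (a, b), U ∈ 𝓝 p.1 ∧ W ∈ 𝓝 p.2 := by
    rw [nhds_prod_eq]
    exact h1.prod_mk h2
  filter_upwards [h3] with p hp hB
  exact h (hB U hp.1 W hp.2)

theorem Bset_mono (α : Action G X) {S T : Set G} (h : S ⊆ T) : Bset α S ⊆ Bset α T := by
  intro p hp U hU W hW
  obtain ⟨g, hg, h1⟩ := hp U hU W hW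
  exact ⟨g, h hg, h1⟩

theorem Bset_nonempty {α : Action G X} (hα : Converges α) {S : Set G} (hS : S.Infinite) :
    (Bset α S).Nonempty := by
  let e := hS.natEmbedding S
  have he : Tendsto (fun n => ((e n : S) : G)) atTop cofinite := by
    rw [← Nat.cofinite_eq_atTop]
    exact (Subtype.val_injective.comp e.injective).tendsto_cofinite
  obtain ⟨φ, _, p, q, h⟩ := hα _ he
  refine ⟨(p, q), fun U hU W hW => ?_⟩
  obtain ⟨n, hn⟩ := (h U hU W hW).exists
  exact ⟨_, (e (φ n)).2, hn⟩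

/-- Minimal actions on spaces with three points: orbits have three points. -/
theorem exists_move [T2Space X] {α : Action G X} (hmin : IsMinimalAction α)
    (h3 : ∃ x y z : X, x ≠ y ∧ y ≠ z ∧ x ≠ z) (a b : X) :
    ∃ k, α.map k a ≠ b ∧ α.map k b ≠ b := by
  have hmul : ∀ g h x, α.map (g * h) x = α.map g (α.map h x) := α.map_mul
  obtain ⟨x, y, z, hxy, hyz, hxz⟩ := h3
  obtain ⟨k1, hk1⟩ : ∃ k, α.map k b ≠ b := by
    by_contra h
    push Not at h
    have hu := hmin {b} isClosed_singleton (singleton_nonempty b) (by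
      rintro g w rfl
      exact h g)
    have e : ∀ w : X, w = b := fun w => by
      have : w ∈ ({b} : Set X) := by rw [hu]; trivial
      exact this
    exact hxy ((e x).trans (e y).symm)
  obtain ⟨k2, hk2, hk2'⟩ : ∃ k, α.map k b ≠ b ∧ α.map k b ≠ α.map k1 b := by
    by_contra h
    push Not at h
    have h' : ∀ k, α.map k b = b ∨ α.map k b = α.map k1 b := fun k => by
      by_cases hb : α.map k b = b
      · exact Or.inl hb
      · exact Or.inr (h k hb)
    have hu := hmin {b, α.map k1 b} (Set.toFinite _).isClosed (insert_nonempty _ _) (by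
      rintro g w hw
      rcases hw with rfl | hw
      · exact h' g
      · rw [mem_singleton_iff.1 hw, ← hmul]
        exact h' _)
    have e : ∀ w : X, w = b ∨ w = α.map k1 b := fun w => by
      have : w ∈ ({b, α.map k1 b} : Set X) := by rw [hu]; trivial
      exact this
    rcases e x with hx | hx <;> rcases e y with hy | hy <;> rcases e z with hz | hz
    · exact hxy (hx.trans hy.symm)
    · exact hxy (hx.trans hy.symm)
    · exact hxz (hx.trans hz.symm)
    · exact hyz (hy.trans hz.symm)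
    · exact hyz (hy.trans hz.symm)
    · exact hxz (hx.trans hz.symm)
    · exact hxy (hx.trans hy.symm)
    · exact hxy (hx.trans hy.symm)
  by_contra h
  push Not at h
  have h1 : α.map k1 a = b := by
    by_contra h'
    exact hk1 (h k1 h')
  have h2 : α.map k2 a = b := by
    by_contra h'
    exact hk2 (h k2 h')
  have h3' : α.map (k1⁻¹ * k2) b ≠ b := by
    intro h'
    apply hk2'
    rw [hmul] at h'
    have := congrArg (α.map k1) h'
    rwa [← hmul, mul_inv_cancel, α.map_one] at this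
  have h4 : α.map (k1⁻¹ * k2) a = b := by
    by_contra h'
    exact h3' (h _ h')
  rw [hmul, h2] at h4
  have := congrArg (α.map k1) h4
  rw [← hmul, mul_inv_cancel, α.map_one] at this
  exact hk1 this.symm

/-- A nonempty invariant family of attracting and repelling points. -/
theorem exists_pairs [CompactSpace X] [T2Space X] {α : Action G X} (hα : Converges α)
    (hmin : IsMinimalAction α) (F : Filter G)
    (hconj : ∀ k : G, Tendsto (fun g => k * g * k⁻¹) F F) (hinf : ∀ S ∈ F, S.Infinite) :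
    ∃ P : Set (X × X), (∀ p ∈ P, ∀ S ∈ F, p ∈ Bset α S) ∧
      (∀ k, ∀ p ∈ P, (α.map k p.1, α.map k p.2) ∈ P) ∧ ∀ a, ∃ b, (a, b) ∈ P := by
  have hne' : (⋂ S : {S : Set G // S ∈ F}, Bset α S.1).Nonempty := by
    have : Nonempty {S : Set G // S ∈ F} := ⟨⟨univ, univ_mem⟩⟩
    apply IsCompact.nonempty_iInter_of_directed_nonempty_isCompact_isClosed
    · rintro ⟨S, hS⟩ ⟨T, hT⟩
      exact ⟨⟨S ∩ T, inter_mem hS hT⟩, Bset_mono α inter_subset_left,
        Bset_mono α inter_subset_right⟩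
    · rintro ⟨S, hS⟩
      exact Bset_nonempty hα (hinf S hS)
    · rintro ⟨S, hS⟩
      exact (Bset_closed α S).isCompact
    · rintro ⟨S, hS⟩
      exact Bset_closed α S
  have hcl : IsClosed (⋂ S : {S : Set G // S ∈ F}, Bset α S.1) :=
    isClosed_iInter fun S => Bset_closed α S.1
  have hmul : ∀ g h x, α.map (g * h) x = α.map g (α.map h x) := α.map_mul
  have hinv : ∀ k : G, ∀ p ∈ ⋂ S : {S : Set G // S ∈ F}, Bset α S.1,
      (α.map k p.1, α.map k p.2) ∈ ⋂ S : {S : Set G // S ∈ F}, Bset α S.1 := by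
    intro k p hp
    rw [mem_iInter] at hp ⊢
    rintro ⟨S, hS⟩ U hU W hW
    have hU' : α.map k ⁻¹' U ∈ 𝓝 p.1 := (α.cont k).continuousAt.preimage_mem_nhds hU
    have hW' : α.map k ⁻¹' W ∈ 𝓝 p.2 := (α.cont k).continuousAt.preimage_mem_nhds hW
    obtain ⟨g, hg, h⟩ := hp ⟨_, hconj k hS⟩ _ hU' _ hW'
    refine ⟨k * g * k⁻¹, hg, fun x hx => ?_⟩
    have hx' : α.map k⁻¹ x ∉ α.map k ⁻¹' W := by
      intro h'
      apply hx
      rw [mem_preimage, ← hmul, mul_inv_cancel, α.map_one] at h'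
      exact h'
    have := h _ hx'
    rw [hmul, hmul]
    exact this
  have hA : Prod.fst '' (⋂ S : {S : Set G // S ∈ F}, Bset α S.1) = univ := by
    apply hmin
    · exact (hcl.isCompact.image continuous_fst).isClosed
    · exact hne'.image _
    · rintro g _ ⟨p, hp, rfl⟩
      exact ⟨_, hinv g p hp, rfl⟩
  refine ⟨_, fun p hp S hS => mem_iInter.1 hp ⟨S, hS⟩, hinv, fun a => ?_⟩
  obtain ⟨⟨a', b⟩, hb, ha'⟩ : a ∈ Prod.fst '' (⋂ S : {S : Set G // S ∈ F}, Bset α S.1) := by
    rw [hA]; trivial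
  change a' = a at ha'
  subst ha'
  exact ⟨b, hb⟩

/-- The core of the argument, for a filter on `G`: if the filter contains no finite set, the image
of every open set is dense in the image of the space. -/
theorem core [CompactSpace X] [T2Space X] {α : Action G X} (hα : Converges α)
    (hmin : IsMinimalAction α) (h3 : ∃ x y z : X, x ≠ y ∧ y ≠ z ∧ x ≠ z)
    {Y : Type} [TopologicalSpace Y] (f : X → Y)
    (F : Filter G) (hconj : ∀ k : G, Tendsto (fun g => k * g * k⁻¹) F F)
    (hlim : ∀ x, Tendsto (fun g => f (α.map g x)) F (𝓝 (f x)))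
    (hU : ∃ U : Set X, IsOpen U ∧ U.Nonempty ∧ ¬ range f ⊆ closure (f '' U)) :
    ∃ S ∈ F, S.Finite := by
  by_contra hcon
  push Not at hcon
  obtain ⟨P, hP, hPinv, hPa⟩ := exists_pairs hα hmin F hconj hcon
  -- the image of a point other than `b` is in the closure of the image of a neighbourhood of `a`
  have step : ∀ p ∈ P, ∀ U ∈ 𝓝 p.1, ∀ x, x ≠ p.2 → f x ∈ closure (f '' U) := by
    intro p hp U hU x hx
    rw [mem_closure_iff_nhds]
    intro N hN
    have hS : {g | f (α.map g x) ∈ N} ∈ F := hlim x hN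
    have hW : ({x}ᶜ : Set X) ∈ 𝓝 p.2 := isOpen_compl_singleton.mem_nhds (fun h => hx h.symm)
    obtain ⟨g, hg, h⟩ := hP p hp _ hS _ hU _ hW
    exact ⟨_, hg, _, h x (by simp), rfl⟩
  obtain ⟨U, hUo, ⟨a, ha⟩, hUr⟩ := hU
  apply hUr
  obtain ⟨b, hb⟩ := hPa a
  have h1 : ∀ x, x ≠ b → f x ∈ closure (f '' U) := fun x hx =>
    step _ hb U (hUo.mem_nhds ha) x hx
  rintro _ ⟨x, rfl⟩
  by_cases hx : x = b
  · subst hx
    obtain ⟨k, hk1, hk2⟩ := exists_move hmin h3 a x
    have h2 := step _ (hPinv k _ hb) {x}ᶜ (isOpen_compl_singleton.mem_nhds hk1) x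
      (fun h => hk2 h.symm)
    refine (closure_minimal ?_ isClosed_closure) h2
    rintro _ ⟨y, hy, rfl⟩
    exact h1 y hy
  · exact h1 x hx

open MeasureTheory in
/-- The core of the argument for maps which are defined and equivariant almost everywhere. -/
theorem coreM [CompactSpace X] [T2Space X] [FirstCountableTopology X] {α : Action G X}
    (hα : Converges α) (hmin : IsMinimalAction α) [MeasurableSpace X] (μ : Measure X)
    (hatom : ∀ x, μ {x} = 0) (hqi : ∀ g E, μ E = 0 → μ (α.map g ⁻¹' E) = 0)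
    {Y : Type} [TopologicalSpace Y] [SecondCountableTopology Y] (f : X → Y)
    (F : Filter G) (hconj : ∀ k : G, Tendsto (fun g => k * g * k⁻¹) F F)
    (hlim : ∀ N : Set Y, IsOpen N → ∀ y ∈ N, ∃ N' ∈ 𝓝 y, ∀ᶠ g in F,
      ∀ᵐ x ∂μ, f x ∈ N' → f (α.map g x) ∈ N)
    (hU : ∃ (U : Set X) (N : Set Y), IsOpen U ∧ U.Nonempty ∧ IsOpen N ∧ μ (f ⁻¹' N) ≠ 0 ∧
      μ (U ∩ f ⁻¹' N) = 0) :
    ∃ S ∈ F, S.Finite := by
  by_contra hcon
  push Not at hcon
  obtain ⟨P, hP, _, hPa⟩ := exists_pairs hα hmin F hconj hcon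
  obtain ⟨U, N, hUo, ⟨a, ha⟩, hNo, hN, hUN⟩ := hU
  obtain ⟨b, hb⟩ := hPa a
  -- a smaller open set
  obtain ⟨N', hN', hev⟩ : ∃ N' : Set Y, μ (f ⁻¹' N') ≠ 0 ∧
      ∀ᶠ g in F, ∀ᵐ x ∂μ, f x ∈ N' → f (α.map g x) ∈ N := by
    choose! T hT hTe using hlim N hNo
    obtain ⟨t, htN, htc, htU⟩ := TopologicalSpace.countable_cover_nhdsWithin
      (f := T) (s := N) (fun y hy => mem_nhdsWithin_of_mem_nhds (hT y hy))
    by_contra hcon'
    apply hN
    have h1 : f ⁻¹' N ⊆ ⋃ y ∈ t, f ⁻¹' T y := by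
      intro x hx
      have := htU hx
      simpa using this
    refine measure_mono_null h1 ((measure_biUnion_null_iff htc).2 fun y hy => ?_)
    by_contra hne
    exact hcon' ⟨T y, hne, hTe y (htN hy)⟩
  -- remove a neighbourhood of `b`
  obtain ⟨W, hW, hWE⟩ : ∃ W ∈ 𝓝 b, μ (f ⁻¹' N' \ W) ≠ 0 := by
    obtain ⟨B, hB⟩ := (𝓝 b).exists_antitone_basis
    by_contra hcon'
    push Not at hcon'
    apply hN'
    have h1 : f ⁻¹' N' ⊆ {b} ∪ ⋃ i, (f ⁻¹' N' \ B i) := by
      intro x hx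
      by_cases hxb : x = b
      · exact Or.inl hxb
      · right
        obtain ⟨i, hi⟩ := hB.mem_iff.1 (isOpen_compl_singleton.mem_nhds (fun h : b = x => hxb h.symm))
        rw [mem_iUnion]
        exact ⟨i, hx, fun h => hi h rfl⟩
    refine measure_mono_null h1 (measure_union_null (hatom b) (measure_iUnion_null fun i => ?_))
    exact hcon' _ (hB.mem i)
  obtain ⟨g, hg, h⟩ := hP _ hb _ hev U (hUo.mem_nhds ha) W hW
  apply hWE
  have h2 : μ (α.map g ⁻¹' (U ∩ f ⁻¹' N)) = 0 := hqi g _ hUN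
  have h3 : μ {x | ¬ (f x ∈ N' → f (α.map g x) ∈ N)} = 0 := hg
  refine measure_mono_null ?_ (measure_union_null h2 h3)
  rintro x ⟨hx, hxW⟩
  by_cases hc : f x ∈ N' → f (α.map g x) ∈ N
  · left
    exact ⟨h x hxW, hc hx⟩
  · right
    exact hc

/-- Discreteness for a homomorphism to a topological group. -/
theorem discrete [CompactSpace X] [T2Space X] {α : Action G X} (hα : Converges α)
    (hmin : IsMinimalAction α) (h3 : ∃ x y z : X, x ≠ y ∧ y ≠ z ∧ x ≠ z)
    {H : Type} [Group H] [TopologicalSpace H] [IsTopologicalGroup H]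
    {Y : Type} [TopologicalSpace Y] [MulAction H Y] [ContinuousSMul H Y]
    (ρ : G →* H) (f : X → Y) (hf : ∀ g x, f (α.map g x) = ρ g • f x)
    (hU : ∃ U : Set X, IsOpen U ∧ U.Nonempty ∧ ¬ range f ⊆ closure (f '' U)) :
    ∃ V ∈ 𝓝 (1 : H), {g : G | ρ g ∈ V}.Finite := by
  obtain ⟨S, hS, hfin⟩ := core hα hmin h3 f
    (comap ρ (𝓝 1)) (by
      intro k
      rw [tendsto_comap_iff]
      have h1 : Tendsto (fun h : H => ρ k * h * (ρ k)⁻¹) (𝓝 1) (𝓝 (ρ k * 1 * (ρ k)⁻¹)) := by
        apply Continuous.tendsto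
        fun_prop
      rw [mul_one, mul_inv_cancel] at h1
      refine (h1.comp tendsto_comap).congr fun g => ?_
      simp)
    (by
      intro x
      have h1 : Tendsto (fun h : H => h • f x) (𝓝 1) (𝓝 ((1 : H) • f x)) := by
        apply Continuous.tendsto
        fun_prop
      rw [one_smul] at h1
      refine (h1.comp tendsto_comap).congr fun g => ?_
      simp [hf])
    hU
  obtain ⟨V, hV, hVS⟩ := mem_comap.1 hS
  exact ⟨V, hV, hfin.subset hVS⟩

open MeasureTheory in
/-- Discreteness for a homomorphism to a topological group, almost everywhere version. -/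
theorem discreteM [CompactSpace X] [T2Space X] [FirstCountableTopology X] {α : Action G X}
    (hα : Converges α) (hmin : IsMinimalAction α) [MeasurableSpace X] (μ : Measure X)
    (hatom : ∀ x, μ {x} = 0) (hqi : ∀ g E, μ E = 0 → μ (α.map g ⁻¹' E) = 0)
    {H : Type} [Group H] [TopologicalSpace H] [IsTopologicalGroup H]
    {Y : Type} [TopologicalSpace Y] [SecondCountableTopology Y] [MulAction H Y]
    [ContinuousSMul H Y] (ρ : G →* H) (f : X → Y)
    (hf : ∀ g, ∀ᵐ x ∂μ, f (α.map g x) = ρ g • f x)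
    (hU : ∃ (U : Set X) (N : Set Y), IsOpen U ∧ U.Nonempty ∧ IsOpen N ∧ μ (f ⁻¹' N) ≠ 0 ∧
      μ (U ∩ f ⁻¹' N) = 0) :
    ∃ V ∈ 𝓝 (1 : H), {g : G | ρ g ∈ V}.Finite := by
  obtain ⟨S, hS, hfin⟩ := coreM hα hmin μ hatom hqi f
    (comap ρ (𝓝 1)) (by
      intro k
      rw [tendsto_comap_iff]
      have h1 : Tendsto (fun h : H => ρ k * h * (ρ k)⁻¹) (𝓝 1) (𝓝 (ρ k * 1 * (ρ k)⁻¹)) := by
        apply Continuous.tendsto
        fun_prop
      rw [mul_one, mul_inv_cancel] at h1
      refine (h1.comp tendsto_comap).congr fun g => ?_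
      simp)
    (by
      intro N hN y hy
      have h1 : ContinuousAt (fun p : H × Y => p.1 • p.2) (1, y) :=
        continuous_smul.continuousAt
      have h2 : ∀ᶠ p : H × Y in 𝓝 (1, y), p.1 • p.2 ∈ N :=
        h1.eventually (by
          change ∀ᶠ z in 𝓝 ((1 : H) • y), z ∈ N
          rw [one_smul]
          exact hN.mem_nhds hy)
      rw [nhds_prod_eq] at h2
      obtain ⟨pa, hpa, pb, hpb, h3⟩ := Filter.eventually_prod_iff.1 h2
      refine ⟨{z | pb z}, hpb, ?_⟩
      filter_upwards [tendsto_comap.eventually hpa] with g hg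
      filter_upwards [hf g] with x hx hxN
      rw [hx]
      exact h3 hg hxN)
    hU
  obtain ⟨V, hV, hVS⟩ := mem_comap.1 hS
  exact ⟨V, hV, hfin.subset hVS⟩

/-- A nonconstant map that is continuous at one point satisfies the hypothesis. -/
theorem of_continuousAt {Y : Type} [TopologicalSpace Y] [T2Space Y] {f : X → Y}
    (hc : ∃ x, ContinuousAt f x) (hne : ∃ x y, f x ≠ f y) :
    ∃ U : Set X, IsOpen U ∧ U.Nonempty ∧ ¬ range f ⊆ closure (f '' U) := by
  obtain ⟨x0, hx0⟩ := hc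
  obtain ⟨y, hy⟩ : ∃ y, f y ≠ f x0 := by
    by_contra h
    push Not at h
    obtain ⟨x, y, hxy⟩ := hne
    exact hxy ((h x).trans (h y).symm)
  obtain ⟨N1, N0, hN1, hN0, h1, h0, hd⟩ := t2_separation hy
  obtain ⟨U, hU, hUo, hxU⟩ := mem_nhds_iff.1 (hx0.preimage_mem_nhds (hN0.mem_nhds h0))
  refine ⟨U, hUo, ⟨x0, hxU⟩, fun h => ?_⟩
  have h2 := h ⟨y, rfl⟩
  rw [mem_closure_iff_nhds] at h2
  obtain ⟨z, hz1, w, hw, rfl⟩ := h2 N1 (hN1.mem_nhds h1)
  exact (Set.disjoint_left.1 hd) hz1 (hU hw)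

end Pool.Agent.TH622.Cn
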