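import Pool.Agent.TH622.Cn.Core

/-!
# Hyperbolic space
-/

set_option autoImplicit false

open Filter Topology Set Pool.Agent.TH289.C

namespace Pool.Agent.TH622.Cn

section Form

variable {n : ℕ}

noncomputable instance : ProperSpace (Euc n) := FiniteDimensional.proper ℝ _

instance instFD : FiniteDimensional ℝ (Mink n) :=
  inferInstanceAs (FiniteDimensional ℝ (ℝ × Euc n))

theorem lor_smul (c : ℝ) (v : Mink n) : lor (c • v) = c ^ 2 * lor v := by
  change ((c • (show ℝ × Euc n from v)).1) ^ 2 - ‖(c • (show ℝ × Euc n from v)).2‖ ^ 2 =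
    c ^ 2 * (((show ℝ × Euc n from v)).1 ^ 2 - ‖(show ℝ × Euc n from v).2‖ ^ 2)
  rw [Prod.smul_fst, Prod.smul_snd, norm_smul, smul_eq_mul, Real.norm_eq_abs, mul_pow, mul_pow,
    sq_abs]
  ring

theorem continuous_lor : Continuous (lor (n := n)) := by
  change Continuous fun v : ℝ × Euc n => v.1 ^ 2 - ‖v.2‖ ^ 2
  fun_prop

theorem continuous_time : Continuous (time (n := n)) := by
  change Continuous fun v : ℝ × Euc n => v.1
  fun_prop

/-- A positive definite form attached to a unit time-like vector. -/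
noncomputable def qf (v u : Mink n) : ℝ := (lor (u + v) - lor u - lor v) ^ 2 / 2 - lor u

theorem continuous_qf : Continuous fun p : Mink n × Mink n => qf p.1 p.2 := by
  unfold qf
  have h := continuous_lor (n := n)
  fun_prop

theorem lor_add (u v : Mink n) : lor (u + v) - lor u - lor v =
    2 * ((show ℝ × Euc n from u).1 * (show ℝ × Euc n from v).1 -
      inner ℝ (show ℝ × Euc n from u).2 (show ℝ × Euc n from v).2) := by
  change ((show ℝ × Euc n from u) + (show ℝ × Euc n from v)).1 ^ 2 -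
      ‖((show ℝ × Euc n from u) + (show ℝ × Euc n from v)).2‖ ^ 2 -
      ((show ℝ × Euc n from u).1 ^ 2 - ‖(show ℝ × Euc n from u).2‖ ^ 2) -
      ((show ℝ × Euc n from v).1 ^ 2 - ‖(show ℝ × Euc n from v).2‖ ^ 2) = _
  rw [Prod.fst_add, Prod.snd_add, norm_add_sq_real]
  ring

theorem qf_pos {v : Mink n} (hv : v ∈ HypSpace n) {u : Mink n} (hu : u ≠ 0) : 0 < qf v u := by
  obtain ⟨hv1, hv2⟩ := hv
  unfold qf
  rw [lor_add]
  change ((show ℝ × Euc n from v)).1 ^ 2 - ‖(show ℝ × Euc n from v).2‖ ^ 2 = 1 at hv1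
  change 0 < _ - (((show ℝ × Euc n from u)).1 ^ 2 - ‖(show ℝ × Euc n from u).2‖ ^ 2)
  obtain ⟨t, x, hvt⟩ : ∃ (t : ℝ) (x : Euc n), (show ℝ × Euc n from v) = (t, x) := ⟨_, _, rfl⟩
  obtain ⟨s, y, hus⟩ : ∃ (s : ℝ) (y : Euc n), (show ℝ × Euc n from u) = (s, y) := ⟨_, _, rfl⟩
  rw [hvt] at hv1 ⊢
  rw [hus]
  simp only at hv1 ⊢
  have hcs : (inner ℝ y x) ^ 2 ≤ ‖y‖ ^ 2 * ‖x‖ ^ 2 := by
    have := abs_real_inner_le_norm y x
    calc (inner ℝ y x : ℝ) ^ 2 = |inner ℝ y x| ^ 2 := (sq_abs _).symm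
      _ ≤ (‖y‖ * ‖x‖) ^ 2 := by gcongr
      _ = _ := by ring
  generalize hp : (inner ℝ y x : ℝ) = p at hcs ⊢
  have hne : s ≠ 0 ∨ ‖y‖ ≠ 0 := by
    by_contra h
    push Not at h
    apply hu
    change (show ℝ × Euc n from u) = 0
    rw [hus]
    exact Prod.ext h.1 (norm_eq_zero.1 h.2)
  have hA : 0 < 2 * t ^ 2 - 1 := by nlinarith [norm_nonneg x, sq_nonneg ‖x‖]
  have key : (2 * t ^ 2 - 1) * ((2 * (s * t - p)) ^ 2 / 2 - (s ^ 2 - ‖y‖ ^ 2)) =
      ((2 * t ^ 2 - 1) * s - 2 * t * p) ^ 2 + ((2 * t ^ 2 - 1) * ‖y‖ ^ 2 - 2 * p ^ 2) := by ring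
  have h2 : ‖y‖ ^ 2 ≤ (2 * t ^ 2 - 1) * ‖y‖ ^ 2 - 2 * p ^ 2 := by
    have : t ^ 2 = 1 + ‖x‖ ^ 2 := by linarith
    rw [this]
    nlinarith
  have h3 : 0 < (2 * t ^ 2 - 1) * ((2 * (s * t - p)) ^ 2 / 2 - (s ^ 2 - ‖y‖ ^ 2)) := by
    rw [key]
    by_cases hy : ‖y‖ = 0
    · have hs : s ≠ 0 := by tauto
      have hp0 : p = 0 := by
        rw [hy] at hcs
        have : p ^ 2 ≤ 0 := by simpa using hcs
        exact pow_eq_zero_iff (n := 2) (by norm_num) |>.1 (le_antisymm this (sq_nonneg p))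
      have : 0 < ((2 * t ^ 2 - 1) * s - 2 * t * p) ^ 2 := by
        rw [hp0, mul_zero, sub_zero]
        positivity
      nlinarith [sq_nonneg ‖y‖]
    · have : 0 < ‖y‖ ^ 2 := by positivity
      nlinarith [sq_nonneg ((2 * t ^ 2 - 1) * s - 2 * t * p)]
  exact (mul_pos_iff_of_pos_left hA).1 h3

theorem qf_smul (v : Mink n) (c : ℝ) (u : Mink n) : qf v (c • u) = c ^ 2 * qf v u := by
  unfold qf
  rw [lor_add, lor_add, lor_smul]
  change (2 * ((c • (show ℝ × Euc n from u)).1 * _ - inner ℝ (c • (show ℝ × Euc n from u)).2 _)) ^ 2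
    / 2 - _ = _
  rw [Prod.smul_fst, Prod.smul_snd, inner_smul_left]
  simp only [smul_eq_mul, conj_trivial]
  ring

/-- The linear maps preserving the form and moving a point of a compact set to the compact set are
bounded. -/
theorem bounded {K : Set (Mink n)} (hK : K ⊆ HypSpace n) (hKc : IsCompact K) :
    ∃ R : ℝ, ∀ A : Mink n →L[ℝ] Mink n, (∀ v, lor (A v) = lor v) → (∃ v ∈ K, A v ∈ K) →
      ‖A‖ ≤ R := by
  rcases K.eq_empty_or_nonempty with rfl | hKne
  · exact ⟨0, fun A _ h => by obtain ⟨v, hv, _⟩ := h; exact absurd hv (by simp)⟩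
  have hprop : ProperSpace (Mink n) := FiniteDimensional.proper ℝ _
  have hS : IsCompact (Metric.sphere (0 : Mink n) 1) := isCompact_sphere _ _
  have hne : (Metric.sphere (0 : Mink n) 1).Nonempty := by
    refine ⟨((1 : ℝ), (0 : Euc n)), ?_⟩
    rw [mem_sphere_zero_iff_norm]
    change ‖((1 : ℝ), (0 : Euc n))‖ = 1
    rw [Prod.norm_def]
    simp
  have hP : IsCompact (K ×ˢ Metric.sphere (0 : Mink n) 1) := hKc.prod hS
  have hPne : (K ×ˢ Metric.sphere (0 : Mink n) 1).Nonempty := hKne.prod hne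
  obtain ⟨m, hm0, hmin⟩ : ∃ m : ℝ, 0 < m ∧
      ∀ p ∈ K ×ˢ Metric.sphere (0 : Mink n) 1, m ≤ qf p.1 p.2 := by
    obtain ⟨p0, hp0, h⟩ := hP.exists_isMinOn hPne continuous_qf.continuousOn
    refine ⟨qf p0.1 p0.2, qf_pos (hK hp0.1) ?_, fun p hp => isMinOn_iff.1 h p hp⟩
    have := hp0.2
    rw [mem_sphere_zero_iff_norm] at this
    intro h
    rw [h, norm_zero] at this
    exact zero_ne_one this
  obtain ⟨M, hmax⟩ : ∃ M : ℝ, ∀ p ∈ K ×ˢ Metric.sphere (0 : Mink n) 1, qf p.1 p.2 ≤ M := by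
    obtain ⟨p1, hp1, h⟩ := hP.exists_isMaxOn hPne continuous_qf.continuousOn
    exact ⟨qf p1.1 p1.2, fun p hp => isMaxOn_iff.1 h p hp⟩
  have hscale : ∀ v ∈ K, ∀ u : Mink n, m * ‖u‖ ^ 2 ≤ qf v u ∧ qf v u ≤ M * ‖u‖ ^ 2 := by
    intro v hv u
    by_cases hu : u = 0
    · subst hu
      have : qf v (0 : Mink n) = 0 := by
        have := qf_smul v 0 (0 : Mink n)
        rwa [smul_zero, zero_pow (by norm_num), zero_mul] at this
      rw [this, norm_zero]
      norm_num
    · have hnu : 0 < ‖u‖ := norm_pos_iff.2 hu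
      have hmem : (v, ‖u‖⁻¹ • u) ∈ K ×ˢ Metric.sphere (0 : Mink n) 1 := by
        refine ⟨hv, ?_⟩
        rw [mem_sphere_zero_iff_norm, norm_smul, norm_inv, norm_norm, inv_mul_cancel₀ hnu.ne']
      have h1 : m ≤ qf v (‖u‖⁻¹ • u) := hmin (v, ‖u‖⁻¹ • u) hmem
      have h2 : qf v (‖u‖⁻¹ • u) ≤ M := hmax (v, ‖u‖⁻¹ • u) hmem
      rw [qf_smul, inv_pow] at h1 h2
      have hnu2 : 0 < ‖u‖ ^ 2 := by positivity
      constructor
      · rw [inv_mul_eq_div, le_div_iff₀ hnu2] at h1
        exact h1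
      · rw [inv_mul_eq_div, div_le_iff₀ hnu2] at h2
        exact h2
  have hM0 : 0 ≤ M := by
    obtain ⟨p, hp⟩ := hPne
    exact hm0.le.trans ((hmin p hp).trans (hmax p hp))
  refine ⟨Real.sqrt (M / m), fun A hA hAK => ?_⟩
  obtain ⟨v, hv, hAv⟩ := hAK
  refine ContinuousLinearMap.opNorm_le_bound _ (Real.sqrt_nonneg _) fun u => ?_
  have e : qf (A v) (A u) = qf v u := by
    unfold qf
    rw [← map_add, hA, hA, hA]
  have h1 := (hscale _ hAv (A u)).1
  have h2 := (hscale _ hv u).2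
  rw [e] at h1
  have h3 : ‖A u‖ ^ 2 ≤ M / m * ‖u‖ ^ 2 := by
    rw [div_mul_eq_mul_div, le_div_iff₀ hm0]
    linarith
  have h4 : ‖A u‖ = Real.sqrt (‖A u‖ ^ 2) := (Real.sqrt_sq (norm_nonneg _)).symm
  rw [h4]
  calc Real.sqrt (‖A u‖ ^ 2) ≤ Real.sqrt (M / m * ‖u‖ ^ 2) := Real.sqrt_le_sqrt h3
    _ = Real.sqrt (M / m) * ‖u‖ := by
      rw [Real.sqrt_mul (by positivity), Real.sqrt_sq (norm_nonneg _)]

end Form

section Main

variable {G : Type} [Group G] {X : Type} [TopologicalSpace X] {n : ℕ}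

/-- `ρ` acts by isometries of hyperbolic space `H^{n+1}` (hyperboloid model). -/
def IsIsometric (ρ : LinAction G (Mink n)) : Prop :=
  (∀ g v, lor (ρ.map g v) = lor v) ∧ ∀ g, 0 < time (ρ.map g (origin n))

/-- `f` is an equivariant map to the sphere at infinity of hyperbolic space: `ρ(g)` maps the
light-like ray of `f(x)` to the one of `f(g x)`. -/
def IsEquivariantMap (α : Action G X) (ρ : LinAction G (Mink n)) (f : X → Sn n) : Prop :=
  ∀ g x, ∃ c : ℝ, 0 < c ∧ ρ.map g (light (f x)) = c • light (f (α.map g x))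

theorem time_light (y : Sn n) : time (light y) = 1 := rfl

theorem time_smul (c : ℝ) (v : Mink n) : time (c • v) = c * time v := rfl

theorem light_inj {x y : Sn n} (h : light x = light y) : x = y := by
  have : ((1 : ℝ), (x : Metric.sphere (0 : Euc n) 1).1) =
    ((1 : ℝ), (y : Metric.sphere (0 : Euc n) 1).1) := h
  exact Subtype.ext (Prod.ext_iff.1 this).2

theorem tendsto_of_light {ι : Type} {l : Filter ι} {y : ι → Sn n} {z : Sn n}
    (h : Tendsto (fun i => light (y i)) l (𝓝 (light z))) : Tendsto y l (𝓝 z) := by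
  have h1 : Tendsto (fun i => (show Metric.sphere (0 : Euc n) 1 from y i).1) l
      (𝓝 (show Metric.sphere (0 : Euc n) 1 from z).1) := by
    have hc : Continuous fun v : ℝ × Euc n => v.2 := continuous_snd
    exact (hc.tendsto _).comp h
  exact tendsto_subtype_rng.2 h1

theorem equi_inv {α : Action G X} {ρ : LinAction G (Mink n)} {f : X → Sn n}
    (h : IsEquivariantMap α ρ f) (g : G) (x : X) :
    light (f (α.map g x)) = (time (ρ.map g (light (f x))))⁻¹ • ρ.map g (light (f x)) := by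
  obtain ⟨c, hc, e⟩ := h g x
  rw [e, time_smul, time_light, mul_one, smul_smul, inv_mul_cancel₀ hc.ne', one_smul]

theorem finite_near_one [CompactSpace X] [T2Space X] {α : Action G X} (hα : Converges α)
    (hmin : IsMinimalAction α) (h3 : ∃ x y z : X, x ≠ y ∧ y ≠ z ∧ x ≠ z)
    {ρ : LinAction G (Mink n)} {f : X → Sn n} (hf : IsEquivariantMap α ρ f)
    (hU : ∃ U : Set X, IsOpen U ∧ U.Nonempty ∧ ¬ range f ⊆ closure (f '' U)) :
    ∃ V ∈ 𝓝 (ContinuousLinearMap.id ℝ (Mink n)), {g : G | ρ.map g ∈ V}.Finite := by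
  have hcomp : ∀ g h, ρ.map (g * h) = (ρ.map g).comp (ρ.map h) := by
    intro g h
    ext1 v
    exact ρ.map_mul g h v
  have hone : ρ.map 1 = ContinuousLinearMap.id ℝ (Mink n) := by
    ext1 v
    exact ρ.map_one v
  obtain ⟨S, hS, hfin⟩ := core hα hmin h3 f
    (comap (fun g => ρ.map g) (𝓝 (ContinuousLinearMap.id ℝ (Mink n)))) (by
      intro k
      rw [tendsto_comap_iff]
      have h1 : Tendsto (fun A : Mink n →L[ℝ] Mink n => (ρ.map k).comp (A.comp (ρ.map k⁻¹)))
          (𝓝 (ContinuousLinearMap.id ℝ (Mink n)))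
          (𝓝 ((ρ.map k).comp ((ContinuousLinearMap.id ℝ (Mink n)).comp (ρ.map k⁻¹)))) := by
        apply Continuous.tendsto
        exact continuous_const.clm_comp (continuous_id.clm_comp continuous_const)
      rw [ContinuousLinearMap.id_comp, ← hcomp, mul_inv_cancel, hone] at h1
      refine (h1.comp tendsto_comap).congr fun g => ?_
      simp only [Function.comp]
      rw [hcomp, hcomp, ContinuousLinearMap.comp_assoc])
    (by
      intro x
      apply tendsto_of_light
      have h1 : Tendsto (fun A : Mink n →L[ℝ] Mink n => A (light (f x)))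
          (𝓝 (ContinuousLinearMap.id ℝ (Mink n))) (𝓝 (light (f x))) := by
        have hcont : Continuous fun A : Mink n →L[ℝ] Mink n => A (light (f x)) := by fun_prop
        exact hcont.tendsto _
      have h2 : Tendsto (fun A : Mink n →L[ℝ] Mink n =>
          (time (A (light (f x))))⁻¹ • A (light (f x)))
          (𝓝 (ContinuousLinearMap.id ℝ (Mink n))) (𝓝 (light (f x))) := by
        have h3 := ((continuous_time.tendsto _).comp h1).inv₀ (by
          rw [time_light]; exact one_ne_zero)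
        have h4 := h3.smul h1
        rw [time_light, inv_one, one_smul] at h4
        exact h4
      refine (h2.comp tendsto_comap).congr fun g => ?_
      exact (equi_inv hf g x).symm)
    hU
  obtain ⟨V, hV, hVS⟩ := mem_comap.1 hS
  exact ⟨V, hV, hfin.subset hVS⟩

theorem continuous_light : Continuous (light (n := n)) :=
  (continuous_const.prodMk continuous_subtype_val :
    Continuous fun z : Metric.sphere (0 : Euc n) 1 => ((1 : ℝ), (z : Euc n)))

instance instSC : SecondCountableTopology (Sn n) :=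
  inferInstanceAs (SecondCountableTopology (Metric.sphere (0 : Euc n) 1))

open MeasureTheory in
theorem finite_near_oneM [CompactSpace X] [T2Space X] [FirstCountableTopology X]
    {α : Action G X} (hα : Converges α) (hmin : IsMinimalAction α) [MeasurableSpace X]
    (μ : Measure X) (hatom : ∀ x, μ {x} = 0) (hqi : ∀ g E, μ E = 0 → μ (α.map g ⁻¹' E) = 0)
    {ρ : LinAction G (Mink n)} {f : X → Sn n}
    (hf : ∀ g, ∀ᵐ x ∂μ, ∃ c : ℝ, 0 < c ∧ ρ.map g (light (f x)) = c • light (f (α.map g x)))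
    (hU : ∃ (U : Set X) (N : Set (Sn n)), IsOpen U ∧ U.Nonempty ∧ IsOpen N ∧
      μ (f ⁻¹' N) ≠ 0 ∧ μ (U ∩ f ⁻¹' N) = 0) :
    ∃ V ∈ 𝓝 (ContinuousLinearMap.id ℝ (Mink n)), {g : G | ρ.map g ∈ V}.Finite := by
  have hcomp : ∀ g h, ρ.map (g * h) = (ρ.map g).comp (ρ.map h) := by
    intro g h
    ext1 v
    exact ρ.map_mul g h v
  have hone : ρ.map 1 = ContinuousLinearMap.id ℝ (Mink n) := by
    ext1 v
    exact ρ.map_one v
  obtain ⟨S, hS, hfin⟩ := coreM hα hmin μ hatom hqi f
    (comap (fun g => ρ.map g) (𝓝 (ContinuousLinearMap.id ℝ (Mink n)))) (by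
      intro k
      rw [tendsto_comap_iff]
      have h1 : Tendsto (fun A : Mink n →L[ℝ] Mink n => (ρ.map k).comp (A.comp (ρ.map k⁻¹)))
          (𝓝 (ContinuousLinearMap.id ℝ (Mink n)))
          (𝓝 ((ρ.map k).comp ((ContinuousLinearMap.id ℝ (Mink n)).comp (ρ.map k⁻¹)))) := by
        apply Continuous.tendsto
        exact continuous_const.clm_comp (continuous_id.clm_comp continuous_const)
      rw [ContinuousLinearMap.id_comp, ← hcomp, mul_inv_cancel, hone] at h1
      refine (h1.comp tendsto_comap).congr fun g => ?_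
      simp only [Function.comp]
      rw [hcomp, hcomp, ContinuousLinearMap.comp_assoc])
    (by
      intro N hN y hy
      have hind : N ∈ comap light (𝓝 (light y)) := by
        have h0 : Tendsto (fun z : Sn n => z) (comap light (𝓝 (light y))) (𝓝 y) :=
          tendsto_of_light tendsto_comap
        exact h0 (hN.mem_nhds hy)
      obtain ⟨M, hM, hMN⟩ := mem_comap.1 hind
      have h1 : Tendsto (fun p : (Mink n →L[ℝ] Mink n) × Sn n => p.1 (light p.2))
          (𝓝 (ContinuousLinearMap.id ℝ (Mink n), y)) (𝓝 (light y)) := by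
        have hcont : Continuous fun p : (Mink n →L[ℝ] Mink n) × Sn n => p.1 (light p.2) :=
          continuous_fst.clm_apply (continuous_light.comp continuous_snd)
        exact hcont.tendsto (ContinuousLinearMap.id ℝ (Mink n), y)
      have h2 : Tendsto (fun p : (Mink n →L[ℝ] Mink n) × Sn n =>
          (time (p.1 (light p.2)))⁻¹ • p.1 (light p.2))
          (𝓝 (ContinuousLinearMap.id ℝ (Mink n), y)) (𝓝 (light y)) := by
        have h3 := ((continuous_time.tendsto _).comp h1).inv₀ (by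
          rw [time_light]; exact one_ne_zero)
        have h4 := h3.smul h1
        rw [time_light, inv_one, one_smul] at h4
        exact h4
      have h5 : ∀ᶠ p : (Mink n →L[ℝ] Mink n) × Sn n in
          𝓝 (ContinuousLinearMap.id ℝ (Mink n), y),
          (time (p.1 (light p.2)))⁻¹ • p.1 (light p.2) ∈ M := h2.eventually hM
      rw [nhds_prod_eq] at h5
      obtain ⟨pa, hpa, pb, hpb, h6⟩ := Filter.eventually_prod_iff.1 h5
      refine ⟨{z | pb z}, hpb, ?_⟩
      filter_upwards [tendsto_comap.eventually hpa] with g hg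
      filter_upwards [hf g] with x hx hxN
      apply hMN
      obtain ⟨c, hc, e⟩ := hx
      have h7 := h6 hg hxN
      simp only at h7
      rw [e, time_smul, time_light, mul_one, smul_smul, inv_mul_cancel₀ hc.ne', one_smul] at h7
      exact h7)
    hU
  obtain ⟨V, hV, hVS⟩ := mem_comap.1 hS
  exact ⟨V, hV, hfin.subset hVS⟩

/-- Proper discontinuity on hyperbolic space from discreteness. -/
theorem proper_of_near_one {ρ : LinAction G (Mink n)} (hρ : IsIsometric ρ)
    {V : Set (Mink n →L[ℝ] Mink n)} (hV : V ∈ 𝓝 (ContinuousLinearMap.id ℝ (Mink n)))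
    (hfin : {g : G | ρ.map g ∈ V}.Finite) : ActsProperly (HypSpace n) (fun g => ρ.map g) := by
  have hcomp : ∀ g h, ρ.map (g * h) = (ρ.map g).comp (ρ.map h) := by
    intro g h
    ext1 v
    exact ρ.map_mul g h v
  have hone : ρ.map 1 = ContinuousLinearMap.id ℝ (Mink n) := by
    ext1 v
    exact ρ.map_one v
  intro K hK hKc
  by_contra hinf
  have hinf' : {g : G | ∃ v ∈ K, ρ.map g v ∈ K}.Infinite := hinf
  obtain ⟨R, hR⟩ := bounded hK hKc
  let e := hinf'.natEmbedding _
  have hb1 : ∀ k, ρ.map (e k : G) ∈ Metric.closedBall (0 : Mink n →L[ℝ] Mink n) R := by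
    intro k
    rw [mem_closedBall_zero_iff]
    exact hR _ (fun v => hρ.1 _ v) (e k).2
  have hb2 : ∀ k, ρ.map (e k : G)⁻¹ ∈ Metric.closedBall (0 : Mink n →L[ℝ] Mink n) R := by
    intro k
    rw [mem_closedBall_zero_iff]
    refine hR _ (fun v => hρ.1 _ v) ?_
    obtain ⟨v, hv, hv'⟩ := (e k).2
    refine ⟨_, hv', ?_⟩
    rw [← ρ.map_mul, inv_mul_cancel, ρ.map_one]
    exact hv
  have hprop : ProperSpace (Mink n →L[ℝ] Mink n) := FiniteDimensional.proper ℝ _
  have hcpt : IsCompact (Metric.closedBall (0 : Mink n →L[ℝ] Mink n) R ×ˢ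
      Metric.closedBall (0 : Mink n →L[ℝ] Mink n) R) :=
    (isCompact_closedBall _ _).prod (isCompact_closedBall _ _)
  obtain ⟨⟨A, B⟩, _, φ, hφ, hlim⟩ := hcpt.tendsto_subseq
    (x := fun k => (ρ.map (e k : G), ρ.map (e k : G)⁻¹)) (fun k => ⟨hb1 k, hb2 k⟩)
  have hA : Tendsto (fun k => ρ.map (e (φ k) : G)) atTop (𝓝 A) :=
    (continuous_fst.tendsto _).comp hlim
  have hB : Tendsto (fun k => ρ.map (e (φ k) : G)⁻¹) atTop (𝓝 B) :=
    (continuous_snd.tendsto _).comp hlim
  have hcc : Continuous fun p : (Mink n →L[ℝ] Mink n) × (Mink n →L[ℝ] Mink n) => p.1.comp p.2 :=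
    continuous_fst.clm_comp continuous_snd
  have hBA : B.comp A = ContinuousLinearMap.id ℝ (Mink n) := by
    have h1 : Tendsto (fun k => (ρ.map (e (φ k) : G)⁻¹).comp (ρ.map (e (φ k) : G))) atTop
        (𝓝 (B.comp A)) := (hcc.tendsto (B, A)).comp (hB.prodMk_nhds hA)
    have h2 : (fun k => (ρ.map (e (φ k) : G)⁻¹).comp (ρ.map (e (φ k) : G))) =
        fun _ => ContinuousLinearMap.id ℝ (Mink n) := by
      funext k
      rw [← hcomp, inv_mul_cancel, hone]
    rw [h2] at h1
    exact (tendsto_nhds_unique h1 tendsto_const_nhds)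
  have hnear : ∀ᶠ p : (Mink n →L[ℝ] Mink n) × (Mink n →L[ℝ] Mink n) in 𝓝 (B, A),
      p.1.comp p.2 ∈ V := by
    have : V ∈ 𝓝 (B.comp A) := by rw [hBA]; exact hV
    exact hcc.continuousAt (x := (B, A)) this
  rw [nhds_prod_eq] at hnear
  obtain ⟨pa, hpa, pb, hpb, hprod⟩ := Filter.eventually_prod_iff.1 hnear
  obtain ⟨k, hk⟩ := (hB.eventually hpa).exists
  obtain ⟨N, hN⟩ := (hA.eventually hpb).exists_forall_of_atTop
  apply hfin.not_infinite
  have hinj : Function.Injective fun m : ℕ => (e (φ k) : G)⁻¹ * (e (φ (m + N)) : G) := by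
    intro a b hab
    have h1 : (e (φ (a + N)) : G) = (e (φ (b + N)) : G) := mul_left_cancel hab
    have h2 := hφ.injective (e.injective (Subtype.ext h1))
    omega
  refine (Set.infinite_range_of_injective hinj).mono ?_
  rintro _ ⟨m, rfl⟩
  change ρ.map _ ∈ V
  rw [hcomp]
  exact hprod hk (hN (m + N) (by omega))

theorem hyp_main [CompactSpace X] [T2Space X] {α : Action G X} (hα : Converges α)
    (hmin : IsMinimalAction α) (h3 : ∃ x y z : X, x ≠ y ∧ y ≠ z ∧ x ≠ z)
    {ρ : LinAction G (Mink n)} (hρ : IsIsometric ρ) {f : X → Sn n}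
    (hf : IsEquivariantMap α ρ f)
    (hU : ∃ U : Set X, IsOpen U ∧ U.Nonempty ∧ ¬ range f ⊆ closure (f '' U)) :
    ActsProperly (HypSpace n) (fun g => ρ.map g) := by
  obtain ⟨V, hV, hfin⟩ := finite_near_one hα hmin h3 hf hU
  exact proper_of_near_one hρ hV hfin

open MeasureTheory in
theorem hyp_mainM [CompactSpace X] [T2Space X] [FirstCountableTopology X]
    {α : Action G X} (hα : Converges α) (hmin : IsMinimalAction α) [MeasurableSpace X]
    (μ : Measure X) (hatom : ∀ x, μ {x} = 0) (hqi : ∀ g E, μ E = 0 → μ (α.map g ⁻¹' E) = 0)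
    {ρ : LinAction G (Mink n)} (hρ : IsIsometric ρ) {f : X → Sn n}
    (hf : ∀ g, ∀ᵐ x ∂μ, ∃ c : ℝ, 0 < c ∧ ρ.map g (light (f x)) = c • light (f (α.map g x)))
    (hU : ∃ (U : Set X) (N : Set (Sn n)), IsOpen U ∧ U.Nonempty ∧ IsOpen N ∧
      μ (f ⁻¹' N) ≠ 0 ∧ μ (U ∩ f ⁻¹' N) = 0) :
    ActsProperly (HypSpace n) (fun g => ρ.map g) := by
  obtain ⟨V, hV, hfin⟩ := finite_near_oneM hα hmin μ hatom hqi hf hU
  exact proper_of_near_one hρ hV hfin

/-- Elements with a fixed point in hyperbolic space have finite order. -/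
theorem finite_order_of_proper {ρ : LinAction G (Mink n)}
    (h : ActsProperly (HypSpace n) (fun g => ρ.map g)) {g : G} {v : Mink n}
    (hv : v ∈ HypSpace n) (hg : ρ.map g v = v) : IsOfFinOrder g := by
  have h1 := h {v} (singleton_subset_iff.2 hv) isCompact_singleton
  have hpow : ∀ k : ℕ, ρ.map (g ^ k) v = v := by
    intro k
    induction k with
    | zero => rw [pow_zero, ρ.map_one]
    | succ k ih => rw [pow_succ, ρ.map_mul, hg, ih]
  by_contra hord
  have hinj : Function.Injective fun k : ℕ => g ^ k := injective_pow_iff_not_isOfFinOrder.2 hord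
  apply (Set.infinite_range_of_injective hinj) (h1.subset ?_)
  rintro _ ⟨k, rfl⟩
  exact ⟨v, rfl, hpow k⟩

end Main

end Pool.Agent.TH622.Cn
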